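import Mathlib

set_option autoImplicit false

namespace Pool.Agent.Q113.Old.ChromaticGap

open Filter

/-- A game: a possibly infinite directed graph (vertices `V`, edges `E`, with source and target)
whose edges are coloured by `Γ`, in which every vertex has an outgoing edge, with the set `eve` of
the vertices of Eve (the others belong to Adam) and an initial vertex. -/
structure Game (Γ : Type) where
  V : Type
  E : Type
  src : E → V
  tgt : E → V
  col : E → Γ
  eve : Set V
  init : V
  out : ∀ v, ∃ e, src e = v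

/-- A deterministic parity automaton with finite state set. -/
structure DPA (Γ : Type) where
  Q : Type
  fin : Finite Q
  q0 : Q
  step : Q → Γ → Q
  pr : Q → ℕ

/-- The run of a deterministic parity automaton on an infinite word. -/
def DPA.run {Γ : Type} (A : DPA Γ) (w : ℕ → Γ) : ℕ → A.Q
  | 0 => A.q0
  | n + 1 => A.step (A.run w n) (w n)

/-- Acceptance: the largest priority seen infinitely often is even. -/
def DPA.Accepts {Γ : Type} (A : DPA Γ) (w : ℕ → Γ) : Prop :=
  ∃ p, Even p ∧ (∃ᶠ n in atTop, A.pr (A.run w n) = p) ∧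
    ∀ q, p < q → ¬ ∃ᶠ n in atTop, A.pr (A.run w n) = q

/-- `W` is recognised by a finite deterministic parity automaton. -/
def OmegaRegular {Γ : Type} (W : Set (ℕ → Γ)) : Prop :=
  ∃ A : DPA Γ, ∀ w, w ∈ W ↔ A.Accepts w

namespace Game

variable {Γ : Type}

/-- An infinite play from the initial vertex, given by its edges. -/
def IsPlay (G : Game Γ) (e : ℕ → G.E) : Prop :=
  G.src (e 0) = G.init ∧ ∀ n, G.src (e (n + 1)) = G.tgt (e n)

/-- The history before step `n`, with the latest edge first. -/
def hist (G : Game Γ) (e : ℕ → G.E) : ℕ → List G.E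
  | 0 => []
  | n + 1 => e n :: G.hist e n

/-- The current vertex after a history (latest edge first). -/
def cur (G : Game Γ) : List G.E → G.V
  | [] => G.init
  | e :: _ => G.tgt e

/-- Eve has a winning strategy (with no restriction on its memory) for the objective `W`. -/
def EveWins (G : Game Γ) (W : Set (ℕ → Γ)) : Prop :=
  ∃ σ : List G.E → G.E, (∀ h, G.cur h ∈ G.eve → G.src (σ h) = G.cur h) ∧
    ∀ e, G.IsPlay e → (∀ n, G.src (e n) ∈ G.eve → e n = σ (G.hist e n)) →
      (fun n => G.col (e n)) ∈ W

/-- The memory state before step `n` when the colours seen are `w 0, w 1, …`. -/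
def mem {M : Type} (m0 : M) (μ : M → Γ → M) (w : ℕ → Γ) : ℕ → M
  | 0 => m0
  | n + 1 => μ (mem m0 μ w n) (w n)

/-- Eve has a winning chromatic strategy with `k` memory states for the objective `W`. -/
def ChromWins (G : Game Γ) (W : Set (ℕ → Γ)) (k : ℕ) : Prop :=
  ∃ (m0 : Fin k) (μ : Fin k → Γ → Fin k) (c : G.V → Fin k → G.E),
    (∀ v ∈ G.eve, ∀ m, G.src (c v m) = v) ∧
    ∀ e, G.IsPlay e →
      (∀ n, G.src (e n) ∈ G.eve →
        e n = c (G.src (e n)) (mem m0 μ (fun i => G.col (e i)) n)) →
      (fun n => G.col (e n)) ∈ W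

/-- Eve owns every vertex. -/
def OnePlayer (G : Game Γ) : Prop := ∀ v, v ∈ G.eve

/-- The game graph is finite. -/
def IsFinite (G : Game Γ) : Prop := Finite G.V ∧ Finite G.E

end Game

/-- The chromatic memory of `W` over the class `C` of games is `k`. -/
def ChromMem {Γ : Type} (C : Game Γ → Prop) (W : Set (ℕ → Γ)) (k : ℕ) : Prop :=
  IsLeast {k : ℕ | ∀ G : Game Γ, C G → G.EveWins W → G.ChromWins W k} k

/-- The infinite words over `n` letters in which two different letters occur infinitely often. -/
def W (n : ℕ) : Set (ℕ → Fin n) :=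
  {w | ∃ a b, a ≠ b ∧ (∃ᶠ i in atTop, w i = a) ∧ ∃ᶠ i in atTop, w i = b}

/-! ### The objective -/

theorem mem_W_iff {n : ℕ} (w : ℕ → Fin n) : w ∈ W n ↔ ∃ᶠ i in atTop, w (i + 1) ≠ w i := by
  constructor
  · rintro ⟨a, b, hab, ha, hb⟩
    intro hc
    simp only [ne_eq, not_not] at hc
    obtain ⟨N, hN⟩ := eventually_atTop.1 hc
    have hconst : ∀ i, N ≤ i → w i = w N := by
      intro i hi
      induction i, hi using Nat.le_induction with
      | base => rfl
      | succ j hj ih => rw [hN j hj, ih]
    obtain ⟨i, hi, hia⟩ := (frequently_atTop.1 ha) N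
    obtain ⟨j, hj, hjb⟩ := (frequently_atTop.1 hb) N
    exact hab (by rw [← hia, ← hjb, hconst i hi, hconst j hj])
  · intro hch
    have h1 : ∃ a, ∃ᶠ i in atTop, w i = a := by
      by_contra hno
      push Not at hno
      have : ∀ᶠ i in atTop, ∀ a, w i ≠ a := eventually_all.2 hno
      obtain ⟨i, hi⟩ := this.exists
      exact hi (w i) rfl
    obtain ⟨a, ha⟩ := h1
    by_contra hno
    have h2 : ∀ b, ∀ᶠ i in atTop, b ≠ a → w i ≠ b := by
      intro b
      by_cases hb : b = a
      · exact Eventually.of_forall fun i h => absurd hb h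
      · have : ¬ ∃ᶠ i in atTop, w i = b := fun h => hno ⟨a, b, Ne.symm hb, ha, h⟩
        have := not_frequently.1 this
        exact this.mono fun i hi _ => hi
    have h3 : ∀ᶠ i in atTop, w i = a := by
      refine (eventually_all.2 h2).mono fun i hi => ?_
      by_contra hne
      exact hi (w i) hne rfl
    obtain ⟨N, hN⟩ := eventually_atTop.1 h3
    obtain ⟨i, hi, hc⟩ := (frequently_atTop.1 hch) N
    exact hc (by rw [hN i hi, hN (i + 1) (by omega)])

/-- The automaton: remember the last letter and whether it has just changed. -/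
def autW (n : ℕ) : DPA (Fin n) where
  Q := Option (Fin n) × Bool
  fin := inferInstance
  q0 := (none, false)
  step q a := (some a, decide (q.1 ≠ some a))
  pr q := if q.2 then 2 else 1

theorem omegaRegular_W (n : ℕ) : OmegaRegular (W n) := by
  refine ⟨autW n, fun w => ?_⟩
  have hrun : ∀ i, ((autW n).run w (i + 1)).1 = some (w i) := fun i => rfl
  have hpr : ∀ i, (autW n).pr ((autW n).run w (i + 2)) = if w (i + 1) ≠ w i then 2 else 1 := by
    intro i
    have : ((autW n).run w (i + 2)).2 = decide (some (w i) ≠ some (w (i + 1))) := rfl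
    show (if ((autW n).run w (i + 2)).2 then 2 else 1) = _
    rw [this]
    by_cases h : w (i + 1) = w i
    · simp [h]
    · have h' : w i ≠ w (i + 1) := fun h'' => h h''.symm
      simp [h, h']
  have hle : ∀ q, (autW n).pr q ≤ 2 := by
    intro q
    show (if q.2 then 2 else 1) ≤ 2
    split_ifs <;> omega
  have hfr : (∃ᶠ i in atTop, w (i + 1) ≠ w i) ↔
      ∃ᶠ i in atTop, (autW n).pr ((autW n).run w i) = 2 := by
    constructor
    · intro h
      rw [frequently_atTop] at h ⊢
      intro N
      obtain ⟨i, hi, hc⟩ := h N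
      exact ⟨i + 2, by omega, by rw [hpr, if_pos hc]⟩
    · intro h
      rw [frequently_atTop] at h ⊢
      intro N
      obtain ⟨i, hi, hc⟩ := h (N + 2)
      obtain ⟨j, rfl⟩ : ∃ j, i = j + 2 := ⟨i - 2, by omega⟩
      refine ⟨j, by omega, ?_⟩
      intro hh
      rw [hpr, if_neg (not_not.2 hh)] at hc
      omega
  rw [mem_W_iff, hfr]
  constructor
  · intro h
    refine ⟨2, ⟨1, rfl⟩, h, ?_⟩
    intro q hq hf
    obtain ⟨i, hi⟩ := hf.exists
    have := hle ((autW n).run w i)
    omega
  · rintro ⟨p, hp, hf, hq⟩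
    have hp2 : p = 2 := by
      obtain ⟨i, hi0, hi⟩ := (frequently_atTop.1 hf) 2
      obtain ⟨j, rfl⟩ : ∃ j, i = j + 2 := ⟨i - 2, by omega⟩
      rw [hpr] at hi
      split_ifs at hi
      · exact hi.symm
      · subst hi
        exact absurd hp (by decide)
    subst hp2
    exact hf

/-! ### One-player games: two states are enough -/

section OneUpper

variable {n : ℕ} (G : Game (Fin n))

/-- An infinite path from `v` seeing both `a` and `b` infinitely often. -/
def Good (a b : Fin n) (v : G.V) (e : ℕ → G.E) : Prop :=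
  G.src (e 0) = v ∧ (∀ i, G.src (e (i + 1)) = G.tgt (e i)) ∧
    (∃ᶠ i in atTop, G.col (e i) = a) ∧ ∃ᶠ i in atTop, G.col (e i) = b

theorem Good.shift {G : Game (Fin n)} {a b : Fin n} {v : G.V} {e : ℕ → G.E}
    (h : Good G a b v e) : Good G a b (G.tgt (e 0)) (fun i => e (i + 1)) := by
  obtain ⟨h0, h1, h2, h3⟩ := h
  refine ⟨h1 0, fun i => h1 (i + 1), ?_, ?_⟩
  · rw [frequently_atTop] at h2 ⊢
    intro N
    obtain ⟨i, hi, hc⟩ := h2 (N + 1)
    obtain ⟨j, rfl⟩ : ∃ j, i = j + 1 := ⟨i - 1, by omega⟩
    exact ⟨j, by omega, hc⟩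
  · rw [frequently_atTop] at h3 ⊢
    intro N
    obtain ⟨i, hi, hc⟩ := h3 (N + 1)
    obtain ⟨j, rfl⟩ : ∃ j, i = j + 1 := ⟨i - 1, by omega⟩
    exact ⟨j, by omega, hc⟩

theorem exists_good_of_eveWins (h1 : G.OnePlayer) (hw : G.EveWins (W n)) :
    ∃ a b, a ≠ b ∧ ∃ e, Good G a b G.init e := by
  obtain ⟨σ, hσ, hwin⟩ := hw
  let H : ℕ → List G.E := fun n => Nat.rec [] (fun _ h => σ h :: h) n
  have hH : ∀ n, G.hist (fun i => σ (H i)) n = H n := by
    intro n
    induction n with
    | zero => rfl
    | succ n ih => show σ (H n) :: G.hist (fun i => σ (H i)) n = σ (H n) :: H n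
                   rw [ih]
  have hplay : G.IsPlay (fun i => σ (H i)) := by
    refine ⟨hσ [] (h1 _), fun i => ?_⟩
    exact hσ (H (i + 1)) (h1 _)
  have hin := hwin (fun i => σ (H i)) hplay (fun n _ => by rw [hH])
  obtain ⟨a, b, hab, ha, hb⟩ := hin
  exact ⟨a, b, hab, _, hplay.1, hplay.2, ha, hb⟩

theorem pick_one (a b c : Fin n) (hc : c = a ∨ c = b) (v : G.V) :
    ∃ e0, G.src e0 = v ∧ ((∃ e, Good G a b v e) → (∃ e, Good G a b (G.tgt e0) e) ∧
      ∀ k, (∃ e, Good G a b v e ∧ G.col (e k) = c) → G.col e0 = c ∨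
        ∃ k', k' < k ∧ ∃ e, Good G a b (G.tgt e0) e ∧ G.col (e k') = c) := by
  classical
  by_cases hv : ∃ e, Good G a b v e
  · have hD : ∃ k, ∃ e, Good G a b v e ∧ G.col (e k) = c := by
      obtain ⟨e, he⟩ := hv
      have hfr : ∃ᶠ i in atTop, G.col (e i) = c := by
        rcases hc with rfl | rfl
        · exact he.2.2.1
        · exact he.2.2.2
      obtain ⟨k, hk⟩ := hfr.exists
      exact ⟨k, e, he, hk⟩
    obtain ⟨e, he, hek⟩ := Nat.find_spec hD
    refine ⟨e 0, he.1, fun _ => ⟨⟨_, he.shift⟩, fun k hk => ?_⟩⟩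
    have hle : Nat.find hD ≤ k := Nat.find_min' hD hk
    rcases Nat.eq_zero_or_pos (Nat.find hD) with h0 | h0
    · rw [h0] at hek
      exact Or.inl hek
    · refine Or.inr ⟨Nat.find hD - 1, by omega, _, he.shift, ?_⟩
      show G.col (e (Nat.find hD - 1 + 1)) = c
      rw [Nat.sub_add_cancel h0]
      exact hek
  · obtain ⟨e0, he0⟩ := G.out v
    exact ⟨e0, he0, fun h => absurd h hv⟩

theorem chromWins_two (h1 : G.OnePlayer) (hw : G.EveWins (W n)) : G.ChromWins (W n) 2 := by
  classical
  obtain ⟨a, b, hab, hgood⟩ := exists_good_of_eveWins G h1 hw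
  let t : Fin 2 → Fin n := fun m => if m = 0 then a else b
  have ht : ∀ m, t m = a ∨ t m = b := by
    intro m
    by_cases hm : m = 0
    · exact Or.inl (if_pos hm)
    · exact Or.inr (if_neg hm)
  let μ : Fin 2 → Fin n → Fin 2 := fun m x => if x = a then 1 else if x = b then 0 else m
  choose c hc1 hc2 using fun (v : G.V) (m : Fin 2) => pick_one G a b (t m) (ht m) v
  refine ⟨0, μ, c, fun v _ m => hc1 v m, fun e he hcons => ?_⟩
  set s : ℕ → Fin 2 := Game.mem 0 μ (fun i => G.col (e i)) with hs
  have hsucc : ∀ i, s (i + 1) = μ (s i) (G.col (e i)) := fun i => rfl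
  have hcons' : ∀ i, e i = c (G.src (e i)) (s i) := fun i => hcons i (h1 _)
  -- every vertex of the play is good
  have hinv : ∀ i, ∃ p, Good G a b (G.src (e i)) p := by
    intro i
    induction i with
    | zero => rw [he.1]; exact hgood
    | succ i ih =>
      rw [he.2 i, hcons' i]
      exact ((hc2 _ (s i)) ih).1
  -- the wanted letter is seen, or the state changes
  have hsee : ∀ k i, (∃ p, Good G a b (G.src (e i)) p ∧ G.col (p k) = t (s i)) →
      ∃ j, i ≤ j ∧ G.col (e j) = t (s j) := by
    intro k
    induction k using Nat.strong_induction_on with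
    | _ k ih =>
      intro i hk
      rcases ((hc2 _ (s i)) (hinv i)).2 k hk with h | ⟨k', hk', h⟩
      · rw [← hcons' i] at h
        exact ⟨i, le_rfl, h⟩
      · by_cases hsi : s (i + 1) = s i
        · rw [← hcons' i, ← he.2 i, ← hsi] at h
          obtain ⟨j, hj, hj'⟩ := ih k' hk' (i + 1) h
          exact ⟨j, by omega, hj'⟩
        · -- the state changed, so the wanted letter was seen
          refine ⟨i, le_rfl, ?_⟩
          rw [hsucc] at hsi
          by_cases hx : G.col (e i) = a
          · have h2 : μ (s i) (G.col (e i)) = 1 := if_pos hx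
            rw [h2] at hsi
            have h3 : s i = 0 := by
              revert hsi
              generalize s i = m
              fin_cases m <;> simp
            rw [h3, hx]
            rfl
          · by_cases hy : G.col (e i) = b
            · have h2 : μ (s i) (G.col (e i)) = 0 := by
                show (if _ then _ else _) = _
                rw [if_neg hx, if_pos hy]
              rw [h2] at hsi
              have h3 : ¬ s i = 0 := fun h => hsi h.symm
              show G.col (e i) = if s i = 0 then a else b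
              rw [if_neg h3, hy]
            · exfalso
              apply hsi
              show (if _ then _ else _) = _
              rw [if_neg hx, if_neg hy]
  have hsee' : ∀ i, ∃ j, i ≤ j ∧ G.col (e j) = t (s j) := by
    intro i
    obtain ⟨p, hp⟩ := hinv i
    have hfr : ∃ᶠ k in atTop, G.col (p k) = t (s i) := by
      rcases ht (s i) with h | h
      · rw [h]; exact hp.2.2.1
      · rw [h]; exact hp.2.2.2
    obtain ⟨k, hk⟩ := hfr.exists
    exact hsee k i ⟨p, hp, hk⟩
  have hfa : ∃ᶠ i in atTop, G.col (e i) = a := by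
    rw [frequently_atTop]
    intro N
    by_contra hno
    push Not at hno
    obtain ⟨i, hi, hci⟩ := hsee' N
    have hsi : s i ≠ 0 := by
      intro h
      rw [h] at hci
      exact hno i hi hci
    have hcb : G.col (e i) = b := by
      rw [hci]; exact if_neg hsi
    have hkeep : ∀ j, i + 1 ≤ j → s j = 0 := by
      intro j hj
      induction j, hj using Nat.le_induction with
      | base =>
        rw [hsucc]
        show (if _ then _ else _) = _
        rw [if_neg (hno i hi), if_pos hcb]
      | succ j hj ih =>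
        rw [hsucc]
        show (if _ then _ else _) = _
        rw [if_neg (hno j (by omega)), ih]
        simp
    obtain ⟨j, hj, hcj⟩ := hsee' (i + 1)
    rw [hkeep j hj] at hcj
    exact hno j (by omega) hcj
  have hfb : ∃ᶠ i in atTop, G.col (e i) = b := by
    rw [frequently_atTop]
    intro N
    by_contra hno
    push Not at hno
    obtain ⟨i, hi, hci⟩ := hsee' N
    have hsi : s i = 0 := by
      by_contra h
      apply hno i hi
      rw [hci]; exact if_neg h
    have hca : G.col (e i) = a := by
      rw [hci]; exact if_pos hsi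
    have hkeep : ∀ j, i + 1 ≤ j → s j = 1 := by
      intro j hj
      induction j, hj using Nat.le_induction with
      | base =>
        rw [hsucc]
        show (if _ then _ else _) = _
        rw [if_pos hca]
      | succ j hj ih =>
        rw [hsucc]
        show (if _ then _ else _) = _
        rw [if_neg (hno j (by omega)), ih]
        simp
    obtain ⟨j, hj, hcj⟩ := hsee' (i + 1)
    rw [hkeep j hj] at hcj
    exact hno j (by omega) (by rw [hcj]; exact if_neg (by decide))
  exact ⟨a, b, hab, hfa, hfb⟩

end OneUpper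

/-! ### Arbitrary games: `n` states are enough -/

section Upper

variable {n : ℕ} (G : Game (Fin n))

/-- A history (latest edge first) that is a path from the initial vertex and follows `σ`. -/
def Cons (σ : List G.E → G.E) : List G.E → Prop
  | [] => True
  | e :: h => Cons σ h ∧ G.src e = G.cur h ∧ (G.cur h ∈ G.eve → e = σ h)

theorem exists_ext : ∀ (h : List G.E) (g : ℕ → G.E),
    ∃ e : ℕ → G.E, G.hist e h.length = h ∧ ∀ i, e (h.length + i) = g i := by
  intro h
  induction h with
  | nil => intro g; exact ⟨g, rfl, fun i => by simp⟩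
  | cons x h ih =>
    intro g
    obtain ⟨e, he1, he2⟩ := ih (fun i => Nat.casesOn i x g)
    refine ⟨e, ?_, fun i => ?_⟩
    · show e h.length :: G.hist e h.length = x :: h
      rw [he1]
      congr 1
      exact he2 0
    · have := he2 (i + 1)
      show e (h.length + 1 + i) = g i
      rw [show h.length + 1 + i = h.length + (i + 1) by omega]
      exact this

/-- One step along an edge coloured `a`. -/
def Rel (σ : List G.E → G.E) (a : Fin n) (h' h : List G.E) : Prop :=
  ∃ e, h' = e :: h ∧ Cons G σ h' ∧ G.col e = a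

theorem cur_hist (e : ℕ → G.E) (he : G.IsPlay e) (i : ℕ) : G.cur (G.hist e i) = G.src (e i) := by
  cases i with
  | zero => exact he.1.symm
  | succ i => exact (he.2 i).symm

theorem rel_wf (σ : List G.E → G.E)
    (hwin : ∀ e, G.IsPlay e → (∀ n, G.src (e n) ∈ G.eve → e n = σ (G.hist e n)) →
      (fun n => G.col (e n)) ∈ W n) (a : Fin n) : WellFounded (Rel G σ a) := by
  rw [wellFounded_iff_isEmpty_descending_chain]
  refine ⟨fun ⟨f, hf⟩ => ?_⟩
  choose g hg1 hg2 hg3 using hf
  obtain ⟨e, he1, he2⟩ := exists_ext G (f 0) g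
  have hh : ∀ i, G.hist e ((f 0).length + i) = f i := by
    intro i
    induction i with
    | zero => exact he1
    | succ i ih =>
      show e ((f 0).length + i) :: G.hist e ((f 0).length + i) = f (i + 1)
      rw [ih, hg1 i, he2]
  have hdown : ∀ j i, Cons G σ (G.hist e (i + j)) → Cons G σ (G.hist e i) := by
    intro j
    induction j with
    | zero => intro i h; exact h
    | succ j ih => intro i h; exact ih i h.1
  have hcons : ∀ i, Cons G σ (G.hist e i) := by
    intro i
    apply hdown ((f 0).length + 1) i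
    rw [show i + ((f 0).length + 1) = (f 0).length + (i + 1) by omega, hh]
    exact hg2 i
  have hplay : G.IsPlay e := by
    refine ⟨(hcons 1).2.1, fun i => (hcons (i + 2)).2.1⟩
  have hfol : ∀ i, G.src (e i) ∈ G.eve → e i = σ (G.hist e i) := by
    intro i hi
    rw [← cur_hist G e hplay i] at hi
    exact (hcons (i + 1)).2.2 hi
  have hin := hwin e hplay hfol
  rw [mem_W_iff] at hin
  obtain ⟨i, hi, hc⟩ := (frequently_atTop.1 hin) (f 0).length
  obtain ⟨j, rfl⟩ := Nat.exists_eq_add_of_le hi
  apply hc
  show G.col (e ((f 0).length + j + 1)) = G.col (e ((f 0).length + j))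
  rw [show (f 0).length + j + 1 = (f 0).length + (j + 1) by omega, he2, he2, hg3, hg3]

/-- A rank of histories that decreases along edges coloured `a`. -/
theorem exists_rank (σ : List G.E → G.E)
    (hwin : ∀ e, G.IsPlay e → (∀ n, G.src (e n) ∈ G.eve → e n = σ (G.hist e n)) →
      (fun n => G.col (e n)) ∈ W n) (a : Fin n) :
    ∃ ρ : List G.E → Ordinal.{0}, ∀ e h, Cons G σ (e :: h) → G.col e = a → ρ (e :: h) < ρ h := by
  have : IsWellFounded (List G.E) (Rel G σ a) := ⟨rel_wf G σ hwin a⟩
  refine ⟨fun h => IsWellFounded.rank (Rel G σ a) h, fun e h hc hcol => ?_⟩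
  exact IsWellFounded.rank_lt_of_rel (show Rel G σ a (e :: h) h from ⟨e, rfl, hc, hcol⟩)

theorem chromWins_n (hn : 0 < n) (hw : G.EveWins (W n)) : G.ChromWins (W n) n := by
  classical
  obtain ⟨σ, hσ, hwin⟩ := hw
  choose ρ hρ using exists_rank G σ hwin
  -- a history of least rank
  have hmin : ∀ (v : G.V) (a : Fin n), ∃ h, (∃ h', Cons G σ h' ∧ G.cur h' = v) →
      Cons G σ h ∧ G.cur h = v ∧ ∀ h', Cons G σ h' → G.cur h' = v → ρ a h ≤ ρ a h' := by
    intro v a
    by_cases hv : ∃ h', Cons G σ h' ∧ G.cur h' = v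
    · obtain ⟨h, hh, hm⟩ := (InvImage.wf (ρ a) Ordinal.lt_wf).has_min
        {h' | Cons G σ h' ∧ G.cur h' = v} hv
      exact ⟨h, fun _ => ⟨hh.1, hh.2, fun h' h1 h2 => not_lt.1 (hm h' ⟨h1, h2⟩)⟩⟩
    · exact ⟨[], fun h => absurd h hv⟩
  choose H hH using hmin
  let c : G.V → Fin n → G.E := fun v m =>
    if ∃ h', Cons G σ h' ∧ G.cur h' = v then σ (H v m) else (G.out v).choose
  refine ⟨⟨0, hn⟩, fun _ x => x, c, fun v hv m => ?_, fun e he hcons => ?_⟩
  · by_cases hh : ∃ h', Cons G σ h' ∧ G.cur h' = v
    · show G.src (if _ then _ else _) = v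
      rw [if_pos hh]
      have h2 := (hH v m hh).2.1
      have := hσ (H v m) (by rw [h2]; exact hv)
      rw [this, h2]
    · show G.src (if _ then _ else _) = v
      rw [if_neg hh]
      exact (G.out v).choose_spec
  · set s : ℕ → Fin n := Game.mem ⟨0, hn⟩ (fun _ x => x) (fun i => G.col (e i)) with hs
    have hsucc : ∀ i, s (i + 1) = G.col (e i) := fun i => rfl
    -- one step
    have hstep : ∀ i, (∃ h', Cons G σ h' ∧ G.cur h' = G.src (e i)) →
        Cons G σ (e i :: H (G.src (e i)) (s i)) := by
      intro i hi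
      obtain ⟨h1, h2, -⟩ := hH _ (s i) hi
      refine ⟨h1, h2.symm, fun h3 => ?_⟩
      rw [h2] at h3
      have := hcons i h3
      refine this.trans ?_
      show (if _ then _ else _) = _
      rw [if_pos hi]
    have hinv : ∀ i, ∃ h', Cons G σ h' ∧ G.cur h' = G.src (e i) := by
      intro i
      induction i with
      | zero => exact ⟨[], trivial, he.1.symm⟩
      | succ i ih => exact ⟨_, hstep i ih, (he.2 i).symm⟩
    -- the state changes infinitely often
    have hch : ∀ N, ∃ i, N ≤ i ∧ G.col (e i) ≠ s i := by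
      intro N
      by_contra hno
      push Not at hno
      have hs' : ∀ i, N ≤ i → s i = s N := by
        intro i hi
        induction i, hi using Nat.le_induction with
        | base => rfl
        | succ j hj ih => rw [hsucc, hno j hj, ih]
      have hdec : ∀ i, ρ (s N) (H (G.src (e (N + i + 1))) (s N)) <
          ρ (s N) (H (G.src (e (N + i))) (s N)) := by
        intro i
        have h1 := hstep (N + i) (hinv _)
        rw [hs' (N + i) (by omega)] at h1
        have h2 : G.col (e (N + i)) = s N := by
          rw [hno (N + i) (by omega), hs' (N + i) (by omega)]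
        have h3 := hρ (s N) _ _ h1 h2
        have h4 := (hH (G.src (e (N + i + 1))) (s N) (hinv _)).2.2 _ h1 (he.2 (N + i)).symm
        exact lt_of_le_of_lt h4 h3
      have hwf := (wellFounded_iff_isEmpty_descending_chain (r := ((· < ·) : Ordinal.{0} →
        Ordinal.{0} → Prop))).1 Ordinal.lt_wf
      exact hwf.false ⟨fun i => ρ (s N) (H (G.src (e (N + i))) (s N)), fun i => hdec i⟩
    rw [mem_W_iff, frequently_atTop]
    intro N
    obtain ⟨i, hi, hc⟩ := hch (N + 1)
    obtain ⟨j, rfl⟩ : ∃ j, i = j + 1 := ⟨i - 1, by omega⟩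
    exact ⟨j, by omega, hc⟩

end Upper

/-! ### One-player games: one state is not enough -/

/-- One vertex of Eve, with a loop of each colour. -/
def loopGame (n : ℕ) (hn : 0 < n) : Game (Fin n) where
  V := Unit
  E := Fin n
  src _ := ()
  tgt _ := ()
  col e := e
  eve := Set.univ
  init := ()
  out _ := ⟨⟨0, hn⟩, rfl⟩

theorem loopGame_wins (n : ℕ) (hn : 2 ≤ n) : (loopGame n (by omega)).EveWins (W n) := by
  let σ : List (Fin n) → Fin n := fun h => if h.length % 2 = 0 then ⟨0, by omega⟩ else ⟨1, by omega⟩
  refine ⟨σ, fun h _ => rfl, fun e he hc => ?_⟩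
  have hlen : ∀ i, ((loopGame n (by omega)).hist e i).length = i := by
    intro i
    induction i with
    | zero => rfl
    | succ i ih =>
      show ((loopGame n (by omega)).hist e i).length + 1 = i + 1
      rw [ih]
  have hval : ∀ i, e i = (if i % 2 = 0 then ⟨0, by omega⟩ else ⟨1, by omega⟩ : Fin n) := by
    intro i
    refine (hc i trivial).trans ?_
    show (if ((loopGame n (by omega)).hist e i).length % 2 = 0 then _ else _) = _
    rw [hlen]
    rfl
  rw [mem_W_iff, frequently_atTop]
  intro N
  refine ⟨N, le_rfl, ?_⟩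
  show e (N + 1) ≠ e N
  rw [hval, hval]
  rcases Nat.mod_two_eq_zero_or_one N with h | h
  · rw [if_neg (by omega : ¬ (N + 1) % 2 = 0), if_pos h]
    intro hh
    have := congrArg Fin.val hh
    simp at this
  · rw [if_pos (by omega : (N + 1) % 2 = 0), if_neg (by omega : ¬ N % 2 = 0)]
    intro hh
    have := congrArg Fin.val hh
    simp at this

theorem two_le_of_loopGame (n : ℕ) (hn : 2 ≤ n) (k : ℕ)
    (h : (loopGame n (by omega)).ChromWins (W n) k) : 2 ≤ k := by
  obtain ⟨m0, μ, c, hc1, hc2⟩ := h
  by_contra hk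
  have hk1 : ∀ m : Fin k, m = m0 := by
    intro m
    apply Fin.ext
    have := m.2
    have := m0.2
    omega
  have hin := hc2 (fun _ => c () m0) ⟨rfl, fun _ => rfl⟩ (fun i _ => by
    show c () m0 = c () _
    rw [hk1 (Game.mem _ _ _ _)])
  rw [mem_W_iff] at hin
  obtain ⟨i, hi⟩ := hin.exists
  exact hi rfl

/-! ### Arbitrary games: fewer than `n` states are not enough -/

/-- The pairs of different letters. -/
abbrev Pair (n : ℕ) : Type := {p : Fin n × Fin n // p.1 ≠ p.2}

/-- Adam owns the vertices `inl i` and moves from there, with colour `i`, to any pair; at a pair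
Eve picks one of its two letters `j` and moves, with colour `j`, to `inl j`. -/
def pairGame (n : ℕ) (hn : 2 ≤ n) : Game (Fin n) where
  V := Fin n ⊕ Pair n
  E := (Fin n × Pair n) ⊕ (Pair n × Bool)
  src := Sum.elim (fun x => Sum.inl x.1) (fun x => Sum.inr x.1)
  tgt := Sum.elim (fun x => Sum.inr x.2)
    (fun x => Sum.inl (if x.2 then x.1.1.1 else x.1.1.2))
  col := Sum.elim (fun x => x.1) (fun x => if x.2 then x.1.1.1 else x.1.1.2)
  eve := Set.range Sum.inr
  init := Sum.inl ⟨0, by omega⟩
  out v := by
    rcases v with i | p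
    · exact ⟨Sum.inl (i, ⟨(⟨0, by omega⟩, ⟨1, by omega⟩), by simp⟩), rfl⟩
    · exact ⟨Sum.inr (p, true), rfl⟩

theorem pairGame_wins (n : ℕ) (hn : 2 ≤ n) : (pairGame n hn).EveWins (W n) := by
  classical
  let σ : List (pairGame n hn).E → (pairGame n hn).E := fun h =>
    match h with
    | Sum.inl (i, p) :: _ => Sum.inr (p, decide (p.1.1 ≠ i))
    | _ => Sum.inr (⟨(⟨0, by omega⟩, ⟨1, by omega⟩), by simp⟩, true)
  have hcur : ∀ h, (pairGame n hn).cur h ∈ (pairGame n hn).eve →
      ∃ i p t, h = Sum.inl (i, p) :: t := by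
    intro h hh
    rcases h with _ | ⟨x, t⟩
    · obtain ⟨y, hy⟩ := hh
      exact absurd hy (by rintro ⟨⟩)
    · rcases x with ⟨i, p⟩ | ⟨p, b⟩
      · exact ⟨i, p, t, rfl⟩
      · obtain ⟨y, hy⟩ := hh
        exact absurd hy (by rintro ⟨⟩)
  refine ⟨σ, fun h hh => ?_, fun e he hc => ?_⟩
  · obtain ⟨i, p, t, rfl⟩ := hcur h hh
    rfl
  · -- at each vertex of Eve the colour changes
    have hkey : ∀ i, (pairGame n hn).src (e (i + 1)) ∈ (pairGame n hn).eve →
        (pairGame n hn).col (e (i + 1)) ≠ (pairGame n hn).col (e i) := by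
      intro i hi
      have h1 := hc (i + 1) hi
      have h2 : (pairGame n hn).cur ((pairGame n hn).hist e (i + 1)) ∈ (pairGame n hn).eve := by
        show (pairGame n hn).tgt (e i) ∈ _
        rw [← he.2 i]
        exact hi
      obtain ⟨x, p, t, ht⟩ := hcur _ h2
      have h3 : e i = Sum.inl (x, p) := by
        have : e i :: (pairGame n hn).hist e i = Sum.inl (x, p) :: t := ht
        exact (List.cons.inj this).1
      rw [ht] at h1
      rw [h1, h3]
      show (if decide (p.1.1 ≠ x) = true then p.1.1 else p.1.2) ≠ x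
      by_cases hp : p.1.1 = x
      · rw [if_neg (by simp [hp])]
        intro h
        exact p.2 (hp.trans h.symm)
      · rw [if_pos (by simp [hp])]
        exact hp
    have halt : ∀ i, (pairGame n hn).src (e i) ∈ (pairGame n hn).eve ∨
        (pairGame n hn).src (e (i + 1)) ∈ (pairGame n hn).eve := by
      intro i
      rcases hx : e i with ⟨x, p⟩ | ⟨p, b⟩
      · right
        rw [he.2 i, hx]
        exact ⟨p, rfl⟩
      · left
        exact ⟨p, rfl⟩
    rw [mem_W_iff, frequently_atTop]
    intro N
    rcases halt (N + 1) with h | h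
    · exact ⟨N, le_rfl, hkey N h⟩
    · exact ⟨N + 1, by omega, hkey (N + 1) h⟩

theorem le_of_pairGame (n : ℕ) (hn : 2 ≤ n) (k : ℕ) (h : (pairGame n hn).ChromWins (W n) k) :
    n ≤ k := by
  classical
  obtain ⟨m0, μ, c, hc1, hc2⟩ := h
  by_contra hk
  -- Eve's edge at a pair
  have hform : ∀ (p : Pair n) (m : Fin k), ∃ b : Bool, c (Sum.inr p) m = Sum.inr (p, b) := by
    intro p m
    have h1 := hc1 (Sum.inr p) ⟨p, rfl⟩ m
    rcases hx : c (Sum.inr p) m with ⟨x, q⟩ | ⟨q, b⟩
    · rw [hx] at h1
      exact absurd h1 (by rintro ⟨⟩)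
    · rw [hx] at h1
      have : q = p := Sum.inr.inj h1
      exact ⟨b, by rw [this]⟩
  -- some letter is chosen in every memory state, at some pair
  have hletter : ∃ i : Fin n, ∀ m : Fin k, ∃ p : Pair n,
      (pairGame n hn).col (c (Sum.inr p) m) = i := by
    by_contra hno
    push Not at hno
    choose g hg using hno
    have hinj : Function.Injective g := by
      intro i j hij
      by_contra hne
      obtain ⟨b, hb⟩ := hform ⟨(i, j), hne⟩ (g i)
      have h1 := hg i ⟨(i, j), hne⟩
      have h2 := hg j ⟨(i, j), hne⟩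
      rw [← hij, hb] at h2
      rw [hb] at h1
      cases b
      · exact h2 rfl
      · exact h1 rfl
    have := Fintype.card_le_of_injective g hinj
    simp only [Fintype.card_fin] at this
    exact hk this
  obtain ⟨i, hi⟩ := hletter
  choose P hP using hi
  let w : ℕ → Fin n := fun t => if t = 0 then ⟨0, by omega⟩ else i
  let s : ℕ → Fin k := Game.mem m0 μ w
  let e : ℕ → (pairGame n hn).E := fun t =>
    if Even t then Sum.inl (w t, P (s (t + 1))) else c (Sum.inr (P (s t))) (s t)
  have hev : ∀ t, Even t → e t = Sum.inl (w t, P (s (t + 1))) := fun t ht => if_pos ht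
  have hod : ∀ t, ¬ Even t → e t = c (Sum.inr (P (s t))) (s t) := fun t ht => if_neg ht
  have hcol : ∀ t, (pairGame n hn).col (e t) = w t := by
    intro t
    by_cases ht : Even t
    · rw [hev t ht]; rfl
    · rw [hod t ht, hP]
      have : t ≠ 0 := by rintro rfl; exact ht ⟨0, rfl⟩
      exact (if_neg this).symm
  have hplay : (pairGame n hn).IsPlay e := by
    refine ⟨?_, fun t => ?_⟩
    · rw [hev 0 ⟨0, rfl⟩]; rfl
    · by_cases ht : Even t
      · have ht' : ¬ Even (t + 1) := by rw [Nat.even_add_one]; exact not_not.2 ht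
        rw [hev t ht, hod _ ht']
        exact hc1 _ ⟨_, rfl⟩ _
      · have ht' : Even (t + 1) := by rw [Nat.even_add_one]; exact ht
        rw [hev _ ht']
        have h1 : (pairGame n hn).col (e t) = i := by rw [hod t ht, hP]
        obtain ⟨b, hb⟩ := hform (P (s t)) (s t)
        rw [hod t ht, hb] at h1
        rw [hod t ht, hb]
        show Sum.inl (w (t + 1)) = Sum.inl (if b = true then _ else _)
        have h2 : w (t + 1) = i := if_neg (by omega)
        rw [h2]
        congr 1
        exact h1.symm
  have hcolfun : (fun t => (pairGame n hn).col (e t)) = w := funext hcol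
  have hin := hc2 e hplay (fun t ht => by
    rw [hcolfun]
    by_cases hte : Even t
    · rw [hev t hte] at ht
      obtain ⟨y, hy⟩ := ht
      exact absurd hy (by rintro ⟨⟩)
    · have h1 : (pairGame n hn).src (e t) = Sum.inr (P (s t)) := by
        rw [hod t hte]
        exact hc1 _ ⟨_, rfl⟩ _
      rw [h1]
      exact hod t hte)
  rw [hcolfun, mem_W_iff, frequently_atTop] at hin
  obtain ⟨t, ht, hne⟩ := hin 1
  apply hne
  show (if t + 1 = 0 then _ else i) = if t = 0 then _ else i
  rw [if_neg (by omega), if_neg (by omega)]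

/-! ### The result -/

/-- For every `n ≥ 2` the objective `W n` (two different letters occur infinitely often) is
omega-regular, its chromatic memory over one-player games is `2` and its chromatic memory over
arbitrary games is `n`; both also hold over finite games. Hence (with `n = 3`) there is an
omega-regular objective whose chromatic memory over one-player games is smaller than its chromatic
memory over arbitrary games. -/
theorem result :
    (∃ (U : Set (ℕ → Fin 3)) (k k' : ℕ), OmegaRegular U ∧ k < k' ∧
      ChromMem (fun G => G.OnePlayer) U k ∧ ChromMem (fun _ => True) U k') ∧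
    ∀ n : ℕ, 2 ≤ n → OmegaRegular (W n) ∧
      ChromMem (fun G => G.OnePlayer) (W n) 2 ∧
      ChromMem (fun G => G.OnePlayer ∧ G.IsFinite) (W n) 2 ∧
      ChromMem (fun _ => True) (W n) n ∧
      ChromMem (fun G => G.IsFinite) (W n) n := by
  have main : ∀ n : ℕ, 2 ≤ n → OmegaRegular (W n) ∧
      ChromMem (fun G => G.OnePlayer) (W n) 2 ∧
      ChromMem (fun G => G.OnePlayer ∧ G.IsFinite) (W n) 2 ∧
      ChromMem (fun _ => True) (W n) n ∧
      ChromMem (fun G => G.IsFinite) (W n) n := by
    intro n hn
    have hloop1 : (loopGame n (by omega)).OnePlayer := fun _ => trivial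
    have hloop2 : (loopGame n (by omega)).IsFinite :=
      ⟨inferInstanceAs (Finite Unit), inferInstanceAs (Finite (Fin n))⟩
    have hpair : (pairGame n hn).IsFinite :=
      ⟨inferInstanceAs (Finite (Fin n ⊕ Pair n)),
        inferInstanceAs (Finite ((Fin n × Pair n) ⊕ (Pair n × Bool)))⟩
    refine ⟨omegaRegular_W n, ⟨?_, ?_⟩, ⟨?_, ?_⟩, ⟨?_, ?_⟩, ⟨?_, ?_⟩⟩
    · intro G hG hw
      exact chromWins_two G hG hw
    · intro k hk
      exact two_le_of_loopGame n hn k (hk _ hloop1 (loopGame_wins n hn))
    · intro G hG hw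
      exact chromWins_two G hG.1 hw
    · intro k hk
      exact two_le_of_loopGame n hn k (hk _ ⟨hloop1, hloop2⟩ (loopGame_wins n hn))
    · intro G _ hw
      exact chromWins_n G (by omega) hw
    · intro k hk
      exact le_of_pairGame n hn k (hk _ trivial (pairGame_wins n hn))
    · intro G _ hw
      exact chromWins_n G (by omega) hw
    · intro k hk
      exact le_of_pairGame n hn k (hk _ hpair (pairGame_wins n hn))
  refine ⟨⟨W 3, 2, 3, (main 3 (by omega)).1, by omega, (main 3 (by omega)).2.1,
    (main 3 (by omega)).2.2.2.1⟩, main⟩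

end Pool.Agent.Q113.Old.ChromaticGap
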